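import Pool.Agent.Helper90.TS.CStmts

/-!
# MP_79eb7e_lc: module UAHC (almost homogeneity in the context)
-/

set_option autoImplicit false

namespace Pool.Agent.Helper90.TS

open FirstOrder Language

variable {L : FirstOrder.Language.{0, 0}} {C : Type} [L.Structure C]

theorem uahc_up_smul {T : Dt L C} {ι : Type} (g : AutG L C) (x : ι → T.V) :
    up (g • x) = g • up x := rfl

theorem uahc_z0inv (hCINV : ST_CINV) {ι : Type} {D : Set (ι → C)} (hD : Z0 L D) (g : AutG L C)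
    (x : ι → C) : g • x ∈ D ↔ x ∈ D :=
  (hCINV L C ι ∅ D hD).1 g (fun y hy => absurd hy (Set.notMem_empty y)) x

theorem uahc_elim (g : AutG L C) {κ ι : Type} (x : κ → C) (y : ι → C) :
    g • (Sum.elim x y) = Sum.elim (g • x) (g • y) := by
  funext i
  rcases i with i | i <;> rfl

/-- conjugates of an algebraic element over `a` stay in a finite set -/
theorem uahc_fin (hCINV : ST_CINV) {a : Set C} {e : C} (he : e ∈ Acl L a) :
    ∃ D : Set C, D.Finite ∧ ∀ g ∈ Fx (AutG L C) a, g • e ∈ D := by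
  obtain ⟨D, hD, hfin, heD⟩ := he
  refine ⟨D, hfin, fun g hg => ?_⟩
  have h := ((hCINV L C (Fin 1) a {x | x 0 ∈ D} hD).1 g hg (fun _ => e)).2 heD
  exact h

theorem uahc_mem_fx {T : Dt L C} (hUU1 : ST_UU1) {Q a : Set C} (ha : a ⊆ Q) (hQ : Q ⊆ T.U0)
    {g : AutG L C} (hg : g ∈ Fx (AutG L C) {x : T.V | (x : C) ∈ a}) : g ∈ Fx (AutG L C) a := by
  intro x hx
  have hxU : x ∈ T.UU := (hUU1 L C T).1 (hQ (ha hx))
  have h := hg (⟨x, hxU⟩ : T.V) hx
  exact congrArg Subtype.val h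

/-- the key point: `b` and `b'` have the same type over `acl(a)` -/
theorem uahc_tp (hCSEMB : ST_CSEMB) (hUCODE : ST_UCODE) (hUU1 : ST_UU1) (hCPAR : ST_CPAR)
    (hCINV : ST_CINV) (T : Dt L C) {Q a : Set C} (ha : a ⊆ Q) (hQ : Q ⊆ T.U0) {k : ℕ}
    (b : Fin k → T.V) {g0 : AutG L C}
    (hg0 : g0 ∈ Fx (AutG L C) (acl (AutG L C) {x : T.V | (x : C) ∈ a}))
    {D' : Set (Fin k → C)} (hD' : (Acl L a).Definable L D') :
    up b ∈ D' ↔ up (g0 • b) ∈ D' := by
  classical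
  obtain ⟨m, e, E, he, hE, rfl⟩ := (hCPAR L C (Fin k) (Acl L a) D').1 hD'
  obtain ⟨B, hB, hBb, hbB, hBU⟩ := (hUU1 L C T).2.2.1 (Fin k) (up b) (fun i => (b i).2)
  have hX := hCSEMB L C T.S T.hM T.stable (Fin k) (Fin m) B E e hB hBb hE
  have hXU : (T.UU : Set C).Definable L {x | x ∈ B ∧ Sum.elim e x ∈ E} := by
    refine hX.mono ?_
    rintro y ⟨x, hx, i, rfl⟩
    exact hBU x hx i
  -- the set in the context
  have him : im (T := T) {x | up x ∈ {x | x ∈ B ∧ Sum.elim e x ∈ E}} =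
      {x | x ∈ B ∧ Sum.elim e x ∈ E} := by
    apply Set.Subset.antisymm
    · rintro y ⟨x, hx, rfl⟩
      exact hx
    · intro y hy
      exact ⟨fun i => ⟨y i, hBU y hy.1 i⟩, hy, rfl⟩
  have hDf : {x : Fin k → T.V | up x ∈ {x | x ∈ B ∧ Sum.elim e x ∈ E}} ∈ T.Df (Fin k) := by
    refine ⟨by rw [him]; exact hXU, B, hB, hBb, ?_, hBU⟩
    rw [him]
    exact fun x hx => hx.1
  obtain ⟨n, v, hv⟩ := hUCODE L C T (Fin k) _ hDf
  -- the code depends only on the image of `e`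
  have hdep : ∀ g : AutG L C, g • e = e → g • v = v := by
    intro g hge
    rw [← hv g]
    intro x
    have h1 : g • up x ∈ B ↔ up x ∈ B := uahc_z0inv hCINV hB g _
    have h2 : Sum.elim e (g • up x) ∈ E ↔ Sum.elim e (up x) ∈ E := by
      rw [← uahc_z0inv hCINV hE g (Sum.elim e (up x)), uahc_elim, hge]
    exact and_congr h1 h2
  have hdep' : ∀ g g' : AutG L C, g • e = g' • e → g • v = g' • v := by
    intro g g' h
    have h1 : (g'⁻¹ * g) • e = e := by rw [mul_smul, h, inv_smul_smul]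
    have h2 := hdep _ h1
    rw [mul_smul, inv_smul_eq_iff] at h2
    exact h2
  choose F hF using fun j => uahc_fin hCINV (he ⟨j, rfl⟩)
  have hfin : (Set.pi Set.univ F).Finite := Set.Finite.pi' (fun j => (hF j).1) |>.subset
    (fun f hf j => hf j (Set.mem_univ j))
  have hacl : ∀ i, v i ∈ acl (AutG L C) {x : T.V | (x : C) ∈ a} := by
    intro i
    have hsub : {v' | ∃ g ∈ Fx (AutG L C) {x : T.V | (x : C) ∈ a}, g • v i = v'} ⊆
        (fun y : Fin m → C => if h : ∃ g : AutG L C, g • e = y then h.choose • v i else v i) ''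
          (Set.pi Set.univ F) := by
      rintro v' ⟨g, hg, rfl⟩
      refine ⟨g • e, fun j _ => (hF j).2 g (uahc_mem_fx hUU1 ha hQ hg), ?_⟩
      have hex : ∃ g' : AutG L C, g' • e = g • e := ⟨g, rfl⟩
      simp only [dif_pos hex]
      exact congrFun (hdep' _ _ hex.choose_spec) i
    exact (hfin.image _).subset hsub
  have hg0v : g0 • v = v := funext fun i => hg0 _ (hacl i)
  have key := (hv g0).2 hg0v b
  have hbB' : up (g0 • b) ∈ B := (uahc_z0inv hCINV hB g0 (up b)).2 hbB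
  constructor
  · intro h
    exact (key.2 ⟨hbB, h⟩).2
  · intro h
    exact (key.1 ⟨hbB', h⟩).2

theorem st_UAHC (hCSEMB : ST_CSEMB) (hUCODE : ST_UCODE) (hUU1 : ST_UU1) (hCPAR : ST_CPAR)
    (hCINV : ST_CINV) : ST_UAHC := by
  intro L C _ T Q a ha hQ _ hAH k b b' hb hb' heqv
  obtain ⟨g0, hg0, rfl⟩ := heqv
  have htp : tp L (Acl L a) (up b) = tp L (Acl L a) (up (g0 • b)) := by
    apply Set.ext
    intro D'
    constructor
    · rintro ⟨hD, hbD⟩
      exact ⟨hD, (uahc_tp hCSEMB hUCODE hUU1 hCPAR hCINV T ha hQ b hg0 hD).1 hbD⟩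
    · rintro ⟨hD, hbD⟩
      exact ⟨hD, (uahc_tp hCSEMB hUCODE hUU1 hCPAR hCINV T ha hQ b hg0 hD).2 hbD⟩
  obtain ⟨f, ⟨hfQ, hfa⟩, hfb⟩ := hAH k (up b) (up (g0 • b)) hb hb' htp
  obtain ⟨g, hg⟩ := AutG.ofEquiv f
  refine ⟨g, ?_, ?_, ?_⟩
  · intro x hx
    exact Subtype.ext ((hg x).trans (hfa x hx))
  · apply Set.Subset.antisymm
    · rintro y ⟨x, hx, rfl⟩
      have h1 : f (x : C) ∈ Q := by
        rw [← hfQ]
        exact ⟨x, hx, rfl⟩
      have h2 : g • (x : C) ∈ Q := by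
        rw [hg]
        exact h1
      exact h2
    · intro y hy
      have h1 : (y : C) ∈ f '' Q := by
        rw [hfQ]
        exact hy
      obtain ⟨x, hx, hxy⟩ := h1
      have hxU : x ∈ T.UU := (hUU1 L C T).1 (hQ hx)
      refine ⟨⟨x, hxU⟩, hx, Subtype.ext ?_⟩
      exact (hg x).trans hxy
  · funext i
    apply Subtype.ext
    exact (hg _).trans (congrFun hfb i)

end Pool.Agent.Helper90.TS
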